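import Pool.Agent.W500.CS.Stm2

/-!
# CQ-ALG

The algebraic step of project CQ: at most two of the densities are nonzero, and the Hessian
form is nonnegative.
-/

set_option autoImplicit false

open Polynomial
open scoped ComplexConjugate

namespace Pool.Agent.W496.CQ.ALG

open Pool.Agent.W500.CS

/-- a product of three real linear forms on the plane vanishes only if one of them does -/
theorem three (a b c : ℂ) (h : ∀ v : ℂ, (a * v).re * (b * v).re * (c * v).re = 0) :
    a = 0 ∨ b = 0 ∨ c = 0 := by
  have key : (C a.re - C a.im * X) * (C b.re - C b.im * X) * (C c.re - C c.im * X) = (0 : ℝ[X]) := by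
    apply Polynomial.funext
    intro t
    have := h ⟨1, t⟩
    simp only [Complex.mul_re] at this
    simp only [eval_mul, eval_sub, eval_C, eval_X, eval_zero]
    linear_combination this
  have fac : ∀ z : ℂ, (C z.re - C z.im * X : ℝ[X]) = 0 → z = 0 := by
    intro z hz
    have h0 := congrArg (fun p : ℝ[X] => p.eval 0) hz
    have h1 := congrArg (fun p : ℝ[X] => p.eval 1) hz
    simp at h0 h1
    apply Complex.ext
    · simpa using h0
    · simp; linarith
  rcases mul_eq_zero.1 key with h1 | h1
  · rcases mul_eq_zero.1 h1 with h2 | h2
    · exact Or.inl (fac _ h2)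
    · exact Or.inr (Or.inl (fac _ h2))
  · exact Or.inr (Or.inr (fac _ h1))

theorem pair {d : ℕ} (P : Fin d → ℂ)
    (H : ∀ (lam : Fin d → ℝ) (Λ : ℝ) (v : ℂ), (∀ i, |lam i| ≤ Λ) →
      |∑ i, lam i ^ 2 * (P i * v).re| ≤ 2 * Λ * |∑ i, lam i * (P i * v).re|)
    (i j : Fin d) (hij : i ≠ j) : P i = 0 ∨ P j = 0 ∨ P i + P j = 0 := by
  apply three
  intro v
  set p := (P i * v).re with hp
  set q := (P j * v).re with hq
  have hs : ∀ g : Fin d → ℝ, (∀ k, k ≠ i → k ≠ j → g k = 0) → ∑ k, g k = g i + g j := by
    intro g hg
    rw [← Finset.sum_subset (Finset.subset_univ ({i, j} : Finset (Fin d)))]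
    · exact Finset.sum_pair hij
    · intro k _ hk
      simp only [Finset.mem_insert, Finset.mem_singleton, not_or] at hk
      exact hg k hk.1 hk.2
  let lam : Fin d → ℝ := fun k => if k = i then q else if k = j then -p else 0
  have hli : lam i = q := by simp [lam]
  have hlj : lam j = -p := by simp [lam, hij.symm]
  have hlk : ∀ k, k ≠ i → k ≠ j → lam k = 0 := by
    intro k h1 h2
    simp [lam, h1, h2]
  have h := H lam (|p| + |q|) v (by
    intro k
    by_cases h1 : k = i
    · rw [h1, hli]
      linarith [abs_nonneg p]
    · by_cases h2 : k = j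
      · rw [h2, hlj, abs_neg]
        linarith [abs_nonneg q]
      · rw [hlk k h1 h2, abs_zero]
        positivity)
  rw [hs (fun k => lam k ^ 2 * (P k * v).re) (fun k h1 h2 => by simp [hlk k h1 h2]),
    hs (fun k => lam k * (P k * v).re) (fun k h1 h2 => by simp [hlk k h1 h2])] at h
  simp only [hli, hlj, ← hp, ← hq] at h
  have h0 : q * p + -p * q = 0 := by ring
  rw [h0, abs_zero, mul_zero] at h
  have h1 := abs_eq_zero.1 (le_antisymm h (abs_nonneg _))
  rw [add_mul, Complex.add_re, ← hp, ← hq]
  linear_combination h1

theorem main : S_ALG := by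
  intro d A P c hc hP hA H v
  by_cases h0 : ∀ i, P i = 0
  · simp [h0]
  · push Not at h0
    obtain ⟨i, hi⟩ := h0
    have hj : ∃ j, j ≠ i ∧ P j ≠ 0 := by
      by_contra hcon
      push Not at hcon
      apply hi
      rw [← hP]
      symm
      apply Finset.sum_eq_single i
      · intro k _ hk
        exact hcon k hk
      · intro h
        exact absurd (Finset.mem_univ i) h
    obtain ⟨j, hji, hj⟩ := hj
    have hPij : P j = -P i := by
      rcases pair P H i j (Ne.symm hji) with h | h | h
      · exact absurd h hi
      · exact absurd h hj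
      · linear_combination h
    have hk : ∀ k, k ≠ i → k ≠ j → P k = 0 := by
      intro k h1 h2
      by_contra h3
      have e1 : P k + P i = 0 := by
        rcases pair P H k i h1 with h | h | h
        · exact absurd h h3
        · exact absurd h hi
        · exact h
      have e2 : P k + P j = 0 := by
        rcases pair P H k j h2 with h | h | h
        · exact absurd h h3
        · exact absurd h hj
        · exact h
      rw [hPij] at e2
      apply h3
      linear_combination (e1 + e2) / 2
    have hsC : ∑ k, A k * conj (P k) = A i * conj (P i) + A j * conj (P j) := by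
      rw [← Finset.sum_subset (Finset.subset_univ ({i, j} : Finset (Fin d)))]
      · exact Finset.sum_pair (Ne.symm hji)
      · intro k _ hk'
        simp only [Finset.mem_insert, Finset.mem_singleton, not_or] at hk'
        simp [hk k hk'.1 hk'.2]
    have hsR : ∑ k, (A k * v).re * (P k * v).re
        = (A i * v).re * (P i * v).re + (A j * v).re * (P j * v).re := by
      rw [← Finset.sum_subset (Finset.subset_univ ({i, j} : Finset (Fin d)))]
      · exact Finset.sum_pair (Ne.symm hji)
      · intro k _ hk'
        simp only [Finset.mem_insert, Finset.mem_singleton, not_or] at hk'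
        simp [hk k hk'.1 hk'.2]
    rw [hsR]
    rw [hsC, hPij] at hA
    have hN : 0 < Complex.normSq (P i) := Complex.normSq_pos.2 hi
    have e1 : (A i - A j) * (Complex.normSq (P i) : ℂ) = c * P i := by
      rw [← hA, Complex.normSq_eq_conj_mul_self]
      simp only [map_neg]
      ring
    have e2 : ((A i - A j) * v).re * Complex.normSq (P i) = c * (P i * v).re := by
      have e3 : ((A i - A j) * v) * (Complex.normSq (P i) : ℂ) = c * (P i * v) := by
        linear_combination v * e1
      have e4 := congrArg Complex.re e3
      rwa [Complex.re_mul_ofReal, Complex.re_ofReal_mul] at e4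
    have e5 : (A i * v).re * (P i * v).re + (A j * v).re * (P j * v).re
        = ((A i - A j) * v).re * (P i * v).re := by
      rw [hPij]
      simp only [sub_mul, neg_mul, Complex.sub_re, Complex.neg_re]
      ring
    rw [e5]
    have e6 : 0 ≤ (((A i - A j) * v).re * (P i * v).re) * Complex.normSq (P i) := by
      have : (((A i - A j) * v).re * (P i * v).re) * Complex.normSq (P i)
          = c * ((P i * v).re) ^ 2 := by
        linear_combination (P i * v).re * e2
      rw [this]
      positivity
    exact nonneg_of_mul_nonneg_left e6 hN

end Pool.Agent.W496.CQ.ALG
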